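import Pool.Agent.N356.SP.DefsK

set_option autoImplicit false

/-! Project LK (helper356), part GK6c (helper707): the recursion for the moments of `f`. -/

namespace Pool.Agent.N707.LK

open Finset Pool.Agent.H384R3.SPk Pool.Agent.N356.SP

theorem arith {κ A B D E SB SD SE : ℝ} (hκ : 1 ≤ κ)
    (hB : (2 * κ + 2) * (2 * κ + 1) * B = SB)
    (hD : (2 * κ + 2) * (2 * κ + 1) * (2 * κ) * (2 * κ - 1) * D = SD)
    (hE : (2 * κ + 2) * (2 * κ + 1) * (2 * κ) * (2 * κ - 1) * E = SE) :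
    A - (2 * κ + 1) ^ 2 / (κ + 1) ^ 2 * B + (2 * κ + 1) * (2 * κ - 1) / (κ + 1) ^ 2 * D -
      32 / 81 * ((2 * κ + 1) * (2 * κ - 1) / (κ + 1) ^ 2) * E =
    (4 * κ * (κ + 1) ^ 3 * A - 2 * κ * (2 * κ + 1) * SB + SD - 32 / 81 * SE) /
      (4 * κ * (κ + 1) ^ 3) := by
  subst hB hD hE
  have h1 : κ ≠ 0 := by linarith
  have h2 : κ + 1 ≠ 0 := by linarith
  field_simp
  ring

section Words

variable {Γ : Type*} [AddCommGroup Γ] {C : Finset Γ}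

open Classical in
theorem wS_sum (hne : ∀ s ∈ C, s ≠ -s) {n : ℕ} (x : Fin n → Γ) (hx : ∀ i, x i ∈ C) :
    (∑ i, ∑ j, if i ≠ j then (if x i = -x j then (1:ℝ) else 0) else 0) = wS x := by
  unfold wS
  refine Finset.sum_congr rfl fun i _ => Finset.sum_congr rfl fun j _ => ?_
  by_cases h : i = j
  · subst h
    simp [hne _ (hx i)]
  · simp [h]

open Classical in
theorem wS4_sum {n : ℕ} (x : Fin n → Γ) :
    (∑ i, ∑ j, ∑ k, ∑ l, if i ≠ j ∧ i ≠ k ∧ i ≠ l ∧ j ≠ k ∧ j ≠ l ∧ k ≠ l then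
      (if x i = -x j ∧ x k = -x l then (1:ℝ) else 0) else 0) = wS4 x := by
  unfold wS4
  refine Finset.sum_congr rfl fun i _ => Finset.sum_congr rfl fun j _ =>
    Finset.sum_congr rfl fun k _ => Finset.sum_congr rfl fun l _ => ?_
  by_cases h : i ≠ j ∧ i ≠ k ∧ i ≠ l ∧ j ≠ k ∧ j ≠ l ∧ k ≠ l
  · rw [if_pos h]
    by_cases h' : x i = -x j ∧ x k = -x l
    · rw [if_pos h', if_pos ⟨h, h'⟩]
    · rw [if_neg h', if_neg fun h'' => h' h''.2]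
  · rw [if_neg h, if_neg fun h'' => h h''.1]

open Classical in
theorem wV4_sum (θ : Γ → Γ → ℝ) {n : ℕ} (x : Fin n → Γ) :
    (∑ i, ∑ j, ∑ k, ∑ l, if i ≠ j ∧ i ≠ k ∧ i ≠ l ∧ j ≠ k ∧ j ≠ l ∧ k ≠ l then
      (if x i + x j + x k + x l = 0 then θ (x i) (x j) * θ (x k) (x l) else 0) else 0) =
      wV4 θ x := by
  unfold wV4
  refine Finset.sum_congr rfl fun i _ => Finset.sum_congr rfl fun j _ =>
    Finset.sum_congr rfl fun k _ => Finset.sum_congr rfl fun l _ => ?_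
  by_cases h : i ≠ j ∧ i ≠ k ∧ i ≠ l ∧ j ≠ k ∧ j ≠ l ∧ k ≠ l
  · rw [if_pos h]
    by_cases h' : x i + x j + x k + x l = 0
    · rw [if_pos h', if_pos ⟨h, h'⟩]
    · rw [if_neg h', if_neg fun h'' => h' h''.2]
  · rw [if_neg h, if_neg fun h'' => h h''.1]

end Words

section Abs

variable {Γ R : Type*} [AddCommGroup Γ] [CommRing R] [Algebra ℝ R] {K : Cone Γ R}
  {L : R →ₗ[ℝ] ℝ} {C : Finset Γ} {θ : Γ → Γ → ℝ} {φ : Γ → R}

open Classical in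
/-- GK6c: the recursion for the moments of `f` -/
theorem rec_L_of
    (words_pow : ∀ n : ℕ, L (fA C φ ^ n) =
      ∑ x ∈ Fintype.piFinset (fun _ : Fin n => C), L (∏ i, φ (x i)))
    (words_mu : (∀ s ∈ C, -s ∈ C) → ∀ n : ℕ, L (muA C φ * fA C φ ^ n) =
      ∑ x ∈ Fintype.piFinset (fun _ : Fin (n + 2) => C),
        if x 0 = -x 1 then L (∏ i, φ (x i)) else 0)
    (words_mu2 : (∀ s ∈ C, -s ∈ C) → ∀ n : ℕ, L (muA C φ ^ 2 * fA C φ ^ n) =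
      ∑ x ∈ Fintype.piFinset (fun _ : Fin (n + 4) => C),
        if x 0 = -x 1 ∧ x 2 = -x 3 then L (∏ i, φ (x i)) else 0)
    (words_w : (∀ s, θ s (-s) = 0) → ∀ n : ℕ, L (wA C θ φ * fA C φ ^ n) =
      ∑ x ∈ Fintype.piFinset (fun _ : Fin (n + 4) => C),
        if x 0 + x 1 + x 2 + x 3 = 0 then θ (x 0) (x 1) * θ (x 2) (x 3) * L (∏ i, φ (x i)) else 0)
    (word_nonneg : ∀ {n : ℕ} (x : Fin n → Γ),
      0 ≤ L (∏ i, φ (x i)) ∧ (∑ i, x i ≠ 0 → L (∏ i, φ (x i)) = 0))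
    (symm2 : ∀ (C : Finset Γ) (n : ℕ) (I : (Fin (n + 2) → Γ) → ℝ),
      (∀ (σ : Equiv.Perm (Fin (n + 2))) x, I (x ∘ σ) = I x) → ∀ F : Γ → Γ → ℝ,
      ((n:ℝ) + 2) * ((n:ℝ) + 1) *
          ∑ x ∈ Fintype.piFinset (fun _ : Fin (n + 2) => C), F (x 0) (x 1) * I x =
        ∑ x ∈ Fintype.piFinset (fun _ : Fin (n + 2) => C),
          (∑ i, ∑ j, if i ≠ j then F (x i) (x j) else 0) * I x)
    (symm4 : ∀ (C : Finset Γ) (n : ℕ) (I : (Fin (n + 4) → Γ) → ℝ),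
      (∀ (σ : Equiv.Perm (Fin (n + 4))) x, I (x ∘ σ) = I x) → ∀ F : Γ → Γ → Γ → Γ → ℝ,
      ((n:ℝ) + 4) * ((n:ℝ) + 3) * ((n:ℝ) + 2) * ((n:ℝ) + 1) *
          ∑ x ∈ Fintype.piFinset (fun _ : Fin (n + 4) => C), F (x 0) (x 1) (x 2) (x 3) * I x =
        ∑ x ∈ Fintype.piFinset (fun _ : Fin (n + 4) => C),
          (∑ i, ∑ j, ∑ k, ∑ l, if i ≠ j ∧ i ≠ k ∧ i ≠ l ∧ j ≠ k ∧ j ≠ l ∧ k ≠ l then
            F (x i) (x j) (x k) (x l) else 0) * I x)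
    (word_ineq : ∀ {K : ℕ}, 2 ≤ K → OrdC K C → ∀ x : Fin (2 * K) → Γ, (∀ i, x i ∈ C) →
      ∑ i, x i = 0 → 32 / 81 * wV4 θ x ≤
        4 * ((K:ℝ) - 1) * K ^ 3 - 2 * ((K:ℝ) - 1) * (2 * K - 1) * wS x + wS4 x)
    (h : GoodC C θ) {k : ℕ} (hk : 1 ≤ k) (ho : OrdC (k + 1) C) :
    0 ≤ L (fA C φ ^ (2 * k + 2)) -
      (2 * (k:ℝ) + 1) ^ 2 / ((k:ℝ) + 1) ^ 2 * L (muA C φ * fA C φ ^ (2 * k)) +
      (2 * (k:ℝ) + 1) * (2 * k - 1) / ((k:ℝ) + 1) ^ 2 * L (muA C φ ^ 2 * fA C φ ^ (2 * k - 2)) -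
      32 / 81 * ((2 * (k:ℝ) + 1) * (2 * k - 1) / ((k:ℝ) + 1) ^ 2) *
        L (wA C θ φ * fA C φ ^ (2 * k - 2)) := by
  obtain ⟨j, rfl⟩ : ∃ j, k = j + 1 := ⟨k - 1, by omega⟩
  have e1 : 2 * (j + 1) + 2 = 2 * j + 4 := by ring
  have e2 : 2 * (j + 1) = 2 * j + 2 := by ring
  have e3 : 2 * (j + 1) - 2 = 2 * j := by omega
  rw [e1, e3, e2]
  have hI : ∀ (σ : Equiv.Perm (Fin (2 * j + 4))) (x : Fin (2 * j + 4) → Γ),
      L (∏ i, φ ((x ∘ σ) i)) = L (∏ i, φ (x i)) := fun σ x => by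
    congr 1
    exact Equiv.prod_comp σ fun i => φ (x i)
  set P : Finset (Fin (2 * j + 4) → Γ) := Fintype.piFinset (fun _ : Fin (2 * j + 4) => C) with hP
  have hmem : ∀ x ∈ P, ∀ i, x i ∈ C := fun x hx i => Fintype.mem_piFinset.1 hx i
  have hA : L (fA C φ ^ (2 * j + 4)) = ∑ x ∈ P, L (∏ i, φ (x i)) := words_pow _
  have hB : (2 * ((j + 1 : ℕ) : ℝ) + 2) * (2 * ((j + 1 : ℕ) : ℝ) + 1) *
      L (muA C φ * fA C φ ^ (2 * j + 2)) = ∑ x ∈ P, wS x * L (∏ i, φ (x i)) := by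
    have h1 := symm2 C (2 * j + 2) (fun x => L (∏ i, φ (x i))) hI
      fun s t => if s = -t then (1:ℝ) else 0
    have h2 : L (muA C φ * fA C φ ^ (2 * j + 2)) = ∑ x ∈ P,
        (if x 0 = -x 1 then (1:ℝ) else 0) * L (∏ i, φ (x i)) := by
      rw [words_mu h.neg]
      refine Finset.sum_congr rfl fun x _ => ?_
      split_ifs <;> simp
    have h3 : (∑ x ∈ P, wS x * L (∏ i, φ (x i))) = ∑ x ∈ P,
        (∑ i, ∑ j, if i ≠ j then (if x i = -x j then (1:ℝ) else 0) else 0) *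
          L (∏ i, φ (x i)) := by
      refine Finset.sum_congr rfl fun x hx => ?_
      rw [wS_sum h.ne x (hmem x hx)]
    rw [h2, h3]
    refine Eq.trans ?_ h1
    congr 1
    push_cast
    ring
  have hD : (2 * ((j + 1 : ℕ) : ℝ) + 2) * (2 * ((j + 1 : ℕ) : ℝ) + 1) * (2 * ((j + 1 : ℕ) : ℝ)) *
      (2 * ((j + 1 : ℕ) : ℝ) - 1) *
      L (muA C φ ^ 2 * fA C φ ^ (2 * j)) = ∑ x ∈ P, wS4 x * L (∏ i, φ (x i)) := by
    have h1 := symm4 C (2 * j) (fun x => L (∏ i, φ (x i))) hI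
      fun s t u v => if s = -t ∧ u = -v then (1:ℝ) else 0
    have h2 : L (muA C φ ^ 2 * fA C φ ^ (2 * j)) = ∑ x ∈ P,
        (if x 0 = -x 1 ∧ x 2 = -x 3 then (1:ℝ) else 0) * L (∏ i, φ (x i)) := by
      rw [words_mu2 h.neg]
      refine Finset.sum_congr rfl fun x _ => ?_
      split_ifs <;> simp
    have h3 : (∑ x ∈ P, wS4 x * L (∏ i, φ (x i))) = ∑ x ∈ P,
        (∑ i, ∑ j, ∑ k, ∑ l, if i ≠ j ∧ i ≠ k ∧ i ≠ l ∧ j ≠ k ∧ j ≠ l ∧ k ≠ l then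
          (if x i = -x j ∧ x k = -x l then (1:ℝ) else 0) else 0) * L (∏ i, φ (x i)) := by
      refine Finset.sum_congr rfl fun x hx => ?_
      rw [wS4_sum x]
    rw [h2, h3]
    refine Eq.trans ?_ h1
    congr 1
    push_cast
    ring
  have hE : (2 * ((j + 1 : ℕ) : ℝ) + 2) * (2 * ((j + 1 : ℕ) : ℝ) + 1) * (2 * ((j + 1 : ℕ) : ℝ)) *
      (2 * ((j + 1 : ℕ) : ℝ) - 1) *
      L (wA C θ φ * fA C φ ^ (2 * j)) = ∑ x ∈ P, wV4 θ x * L (∏ i, φ (x i)) := by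
    have h1 := symm4 C (2 * j) (fun x => L (∏ i, φ (x i))) hI
      fun s t u v => if s + t + u + v = 0 then θ s t * θ u v else 0
    have h2 : L (wA C θ φ * fA C φ ^ (2 * j)) = ∑ x ∈ P,
        (if x 0 + x 1 + x 2 + x 3 = 0 then θ (x 0) (x 1) * θ (x 2) (x 3) else 0) *
          L (∏ i, φ (x i)) := by
      rw [words_w h.anti]
      refine Finset.sum_congr rfl fun x _ => ?_
      split_ifs <;> simp
    have h3 : (∑ x ∈ P, wV4 θ x * L (∏ i, φ (x i))) = ∑ x ∈ P,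
        (∑ i, ∑ j, ∑ k, ∑ l, if i ≠ j ∧ i ≠ k ∧ i ≠ l ∧ j ≠ k ∧ j ≠ l ∧ k ≠ l then
          (if x i + x j + x k + x l = 0 then θ (x i) (x j) * θ (x k) (x l) else 0) else 0) *
          L (∏ i, φ (x i)) := by
      refine Finset.sum_congr rfl fun x hx => ?_
      rw [wV4_sum θ x]
    rw [h2, h3]
    refine Eq.trans ?_ h1
    congr 1
    push_cast
    ring
  have hκ : (1:ℝ) ≤ ((j + 1 : ℕ) : ℝ) := by exact_mod_cast Nat.succ_le_succ (Nat.zero_le j)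
  rw [arith hκ hB hD hE, hA]
  refine div_nonneg ?_ (by positivity)
  have h4 : 4 * ((j + 1 : ℕ) : ℝ) * (((j + 1 : ℕ) : ℝ) + 1) ^ 3 * ∑ x ∈ P, L (∏ i, φ (x i)) -
      2 * ((j + 1 : ℕ) : ℝ) * (2 * ((j + 1 : ℕ) : ℝ) + 1) * ∑ x ∈ P, wS x * L (∏ i, φ (x i)) +
      ∑ x ∈ P, wS4 x * L (∏ i, φ (x i)) - 32 / 81 * ∑ x ∈ P, wV4 θ x * L (∏ i, φ (x i)) =
      ∑ x ∈ P, (4 * ((j + 1 : ℕ) : ℝ) * (((j + 1 : ℕ) : ℝ) + 1) ^ 3 -
        2 * ((j + 1 : ℕ) : ℝ) * (2 * ((j + 1 : ℕ) : ℝ) + 1) * wS x + wS4 x -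
        32 / 81 * wV4 θ x) * L (∏ i, φ (x i)) := by
    rw [Finset.mul_sum, Finset.mul_sum, Finset.mul_sum, ← Finset.sum_sub_distrib,
      ← Finset.sum_add_distrib, ← Finset.sum_sub_distrib]
    refine Finset.sum_congr rfl fun x _ => ?_
    ring
  rw [h4]
  refine Finset.sum_nonneg fun x hx => ?_
  obtain ⟨h5, h6⟩ := word_nonneg x
  by_cases hz : ∑ i, x i = 0
  · refine mul_nonneg ?_ h5
    have h7 := word_ineq (K := j + 1 + 1) (by omega) ho x (hmem x hx) hz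
    have h8 : (((j + 1 + 1 : ℕ) : ℝ) - 1) = ((j + 1 : ℕ) : ℝ) := by push_cast; ring
    have h9 : ((j + 1 + 1 : ℕ) : ℝ) = ((j + 1 : ℕ) : ℝ) + 1 := by push_cast; ring
    rw [h8, h9] at h7
    have h10 : 2 * (((j + 1 : ℕ) : ℝ) + 1) - 1 = 2 * ((j + 1 : ℕ) : ℝ) + 1 := by ring
    rw [h10] at h7
    linarith
  · rw [h6 hz, mul_zero]

end Abs

end Pool.Agent.N707.LK
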